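import Pool.Agent.Helper29.UG.Props
import Pool.Agent.Helper85.RC.RepFV
import Pool.Agent.Helper98.RC.RepFV2

/-!
# MP_b55b7c_an: the von Neumann algebra of the fixed point algebra has no abelian projection
-/

open scoped ENNReal NNReal InnerProductSpace ComplexOrder
open Filter Topology

attribute [-instance] CStarMatrix.instAlgebra CStarMatrix.instModule CStarMatrix.instSMul
  CStarMatrix.instMulAction CStarMatrix.instDistribMulAction

noncomputable section
namespace RC
universe u

theorem noAbAllP (h1 : AbRepP.{u}) (h2 : NoFinP.{u}) : NoAbAllP.{u} := by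
  intro A _ _ _ B _ _ _ j φ G _ _ α H _ _ _ π ρ ξ U hrep hact hfix himp hsimp hinf f hf hfp hf0
  by_contra hcon
  push Not at hcon
  obtain ⟨hFV, hπ⟩ := repFV2P repFVP A B j φ G α H π ρ ξ U hrep hact hfix himp
  obtain ⟨r, χ, hr, hχ1, hχ, hχs⟩ := h1 H _ ξ hFV f hf hfp hf0 hcon
  apply h2 A B G α j hact hfix hsimp hinf r (fun b => χ (π (j b))) hr
  · change χ (π (j 1)) = 1
    rw [map_one, map_one, hχ1]
  · intro x y
    change χ (π (j (x * y))) = χ (π (j x)) * χ (π (j y))
    rw [map_mul, map_mul, (hχ _ (hπ x) _ (hπ y)).1]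
  · intro x y
    change χ (π (j (x + y))) = χ (π (j x)) + χ (π (j y))
    rw [map_add, map_add, (hχ _ (hπ x) _ (hπ y)).2]
  · intro c x
    change χ (π (j (c • x))) = c • χ (π (j x))
    rw [map_smul, map_smul, hχs c _ (hπ x)]

end RC
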